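import Pool.Agent.Q36.AT.Quad

set_option autoImplicit false
set_option linter.all false

open MvPolynomial

namespace Q36.AT

section
variable (k : Type) [Field k]

/-- the quadric coordinate -/
noncomputable def qq : FF k := vv k 0 ^ 2 + vv k 1 * vv k 2

/-- generic point of the quadric `x₀x₁ = x₄² + x₂x₃` -/
noncomputable def quad : Fin 5 → FF k := ![1, qq k, vv k 1, vv k 2, vv k 0]

/-- coordinates on the charts -/
noncomputable def uu1 : Fin 3 → FF k := ![vv k 0 / qq k, vv k 1 / qq k, vv k 2 / qq k]
noncomputable def uu2 : Fin 3 → FF k := ![vv k 0 / vv k 1, 1 / vv k 1, qq k / vv k 1]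
noncomputable def uu3 : Fin 3 → FF k := ![vv k 0 / vv k 2, 1 / vv k 2, qq k / vv k 2]

variable {k}

lemma qq_ne_zero : qq k ≠ 0 := by
  intro h
  have h1 : (X 0 ^ 2 + X 1 * X 2 : MvPolynomial (Fin 3) k) = 0 := by
    apply IsFractionRing.injective (MvPolynomial (Fin 3) k) (FF k)
    rw [map_zero, map_add, map_mul, map_pow]; exact h
  have h2 := congrArg (eval ![1, 0, 0]) h1
  simp at h2

lemma quad_ne_zero (j : Fin 5) : quad k j ≠ 0 := by
  fin_cases j
  · exact one_ne_zero
  · exact qq_ne_zero
  · exact vv_ne_zero 1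
  · exact vv_ne_zero 2
  · exact vv_ne_zero 0

lemma chart0 : chart k (quad k) 0 = Algebra.adjoin k (Set.range (vv k)) := by
  apply le_antisymm
  · apply chart_le
    have hv : ∀ i, vv k i ∈ Algebra.adjoin k (Set.range (vv k)) := fun i =>
      Algebra.subset_adjoin ⟨i, rfl⟩
    intro j
    have h0 : quad k 0 = 1 := rfl
    rw [h0, div_one]
    fin_cases j
    · exact Subalgebra.one_mem _
    · exact Subalgebra.add_mem _ (Subalgebra.pow_mem _ (hv 0) 2) (Subalgebra.mul_mem _ (hv 1) (hv 2))
    · exact hv 1
    · exact hv 2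
    · exact hv 0
  · rw [Algebra.adjoin_le_iff]
    rintro _ ⟨j, rfl⟩
    have h0 : quad k 0 = 1 := rfl
    have hm : ∀ j, quad k j ∈ chart k (quad k) 0 := by
      intro j
      have := mem_chart (k := k) (quad k) 0 j
      rwa [h0, div_one] at this
    fin_cases j
    · exact hm 4
    · exact hm 2
    · exact hm 3

lemma chart1 : chart k (quad k) 1 = Algebra.adjoin k (Set.range (uu1 k)) := by
  have hq := qq_ne_zero (k := k)
  apply le_antisymm
  · apply chart_le
    have hv : ∀ i, uu1 k i ∈ Algebra.adjoin k (Set.range (uu1 k)) := fun i =>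
      Algebra.subset_adjoin ⟨i, rfl⟩
    intro j
    fin_cases j
    · have : quad k 0 / quad k 1 = uu1 k 0 ^ 2 + uu1 k 1 * uu1 k 2 := by
        simp only [quad, uu1, Matrix.cons_val_zero, Matrix.cons_val_one, Matrix.cons_val]
        field_simp
        simp only [qq]
      change quad k 0 / quad k 1 ∈ _
      rw [this]
      exact Subalgebra.add_mem _ (Subalgebra.pow_mem _ (hv 0) 2) (Subalgebra.mul_mem _ (hv 1) (hv 2))
    · change quad k 1 / quad k 1 ∈ _
      rw [div_self (quad_ne_zero 1)]
      exact Subalgebra.one_mem _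
    · exact hv 1
    · exact hv 2
    · exact hv 0
  · rw [Algebra.adjoin_le_iff]
    rintro _ ⟨j, rfl⟩
    fin_cases j
    · exact mem_chart (k := k) (quad k) 1 4
    · exact mem_chart (k := k) (quad k) 1 2
    · exact mem_chart (k := k) (quad k) 1 3

lemma chart2 : chart k (quad k) 2 = Algebra.adjoin k (Set.range (uu2 k)) := by
  have hq := qq_ne_zero (k := k)
  have h1 := vv_ne_zero (k := k) 1
  apply le_antisymm
  · apply chart_le
    have hv : ∀ i, uu2 k i ∈ Algebra.adjoin k (Set.range (uu2 k)) := fun i =>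
      Algebra.subset_adjoin ⟨i, rfl⟩
    intro j
    fin_cases j
    · exact hv 1
    · exact hv 2
    · change quad k 2 / quad k 2 ∈ _
      rw [div_self (quad_ne_zero 2)]
      exact Subalgebra.one_mem _
    · have : quad k 3 / quad k 2 = uu2 k 1 * uu2 k 2 - uu2 k 0 ^ 2 := by
        simp only [quad, uu2, Matrix.cons_val_zero, Matrix.cons_val_one, Matrix.cons_val]
        field_simp
        simp only [qq]
        ring
      change quad k 3 / quad k 2 ∈ _
      rw [this]
      exact Subalgebra.sub_mem _ (Subalgebra.mul_mem _ (hv 1) (hv 2)) (Subalgebra.pow_mem _ (hv 0) 2)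
    · exact hv 0
  · rw [Algebra.adjoin_le_iff]
    rintro _ ⟨j, rfl⟩
    fin_cases j
    · exact mem_chart (k := k) (quad k) 2 4
    · exact mem_chart (k := k) (quad k) 2 0
    · exact mem_chart (k := k) (quad k) 2 1

lemma chart3 : chart k (quad k) 3 = Algebra.adjoin k (Set.range (uu3 k)) := by
  have hq := qq_ne_zero (k := k)
  have h1 := vv_ne_zero (k := k) 2
  apply le_antisymm
  · apply chart_le
    have hv : ∀ i, uu3 k i ∈ Algebra.adjoin k (Set.range (uu3 k)) := fun i =>
      Algebra.subset_adjoin ⟨i, rfl⟩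
    intro j
    fin_cases j
    · exact hv 1
    · exact hv 2
    · have : quad k 2 / quad k 3 = uu3 k 1 * uu3 k 2 - uu3 k 0 ^ 2 := by
        simp only [quad, uu3, Matrix.cons_val_zero, Matrix.cons_val_one, Matrix.cons_val]
        field_simp
        simp only [qq]
        ring
      change quad k 2 / quad k 3 ∈ _
      rw [this]
      exact Subalgebra.sub_mem _ (Subalgebra.mul_mem _ (hv 1) (hv 2)) (Subalgebra.pow_mem _ (hv 0) 2)
    · change quad k 3 / quad k 3 ∈ _
      rw [div_self (quad_ne_zero 3)]
      exact Subalgebra.one_mem _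
    · exact hv 0
  · rw [Algebra.adjoin_le_iff]
    rintro _ ⟨j, rfl⟩
    fin_cases j
    · exact mem_chart (k := k) (quad k) 3 4
    · exact mem_chart (k := k) (quad k) 3 0
    · exact mem_chart (k := k) (quad k) 3 1

lemma top_of_vv (F : IntermediateField k (FF k)) (h : ∀ i, vv k i ∈ F) : F = ⊤ := by
  rw [eq_top_iff, ← adjoin_vv, IntermediateField.adjoin_le_iff]
  rintro _ ⟨i, rfl⟩
  exact h i

lemma gen1 : IntermediateField.adjoin k (Set.range (uu1 k)) = ⊤ := by
  have hq := qq_ne_zero (k := k)
  have hv : ∀ i, uu1 k i ∈ IntermediateField.adjoin k (Set.range (uu1 k)) := fun i =>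
      IntermediateField.subset_adjoin _ _ ⟨i, rfl⟩
  have hqi : (qq k)⁻¹ ∈ IntermediateField.adjoin k (Set.range (uu1 k)) := by
    have : (qq k)⁻¹ = uu1 k 0 ^ 2 + uu1 k 1 * uu1 k 2 := by
      simp only [uu1, Matrix.cons_val_zero, Matrix.cons_val_one, Matrix.cons_val]
      field_simp
      simp only [qq]
    rw [this]
    exact add_mem (pow_mem (hv 0) 2) (mul_mem (hv 1) (hv 2))
  have hq' : qq k ∈ IntermediateField.adjoin k (Set.range (uu1 k)) := by
    have := inv_mem hqi
    rwa [inv_inv] at this
  apply top_of_vv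
  intro i
  have : vv k i = uu1 k i * qq k := by
    fin_cases i <;> simp [uu1] <;> field_simp
  rw [this]
  exact mul_mem (hv i) hq'

lemma gen2 : IntermediateField.adjoin k (Set.range (uu2 k)) = ⊤ := by
  have hq := qq_ne_zero (k := k)
  have h1 := vv_ne_zero (k := k) 1
  have hv : ∀ i, uu2 k i ∈ IntermediateField.adjoin k (Set.range (uu2 k)) := fun i =>
      IntermediateField.subset_adjoin _ _ ⟨i, rfl⟩
  have e1 : vv k 1 ∈ IntermediateField.adjoin k (Set.range (uu2 k)) := by
    have := inv_mem (hv 1)
    simpa [uu2] using this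
  have e0 : vv k 0 ∈ IntermediateField.adjoin k (Set.range (uu2 k)) := by
    have h2 := mul_mem (hv 0) e1
    have : uu2 k 0 * vv k 1 = vv k 0 := by
      simp only [uu2, Matrix.cons_val_zero]
      field_simp
    rwa [this] at h2
  have e2 : vv k 2 ∈ IntermediateField.adjoin k (Set.range (uu2 k)) := by
    have h2 := sub_mem (hv 2) (mul_mem (hv 0) e0)
    have : uu2 k 2 - uu2 k 0 * vv k 0 = vv k 2 := by
      simp only [uu2, Matrix.cons_val_zero, Matrix.cons_val]
      field_simp
      simp only [qq]
      ring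
    rwa [this] at h2
  apply top_of_vv
  intro i
  fin_cases i
  · exact e0
  · exact e1
  · exact e2

lemma gen3 : IntermediateField.adjoin k (Set.range (uu3 k)) = ⊤ := by
  have hq := qq_ne_zero (k := k)
  have h1 := vv_ne_zero (k := k) 2
  have hv : ∀ i, uu3 k i ∈ IntermediateField.adjoin k (Set.range (uu3 k)) := fun i =>
      IntermediateField.subset_adjoin _ _ ⟨i, rfl⟩
  have e1 : vv k 2 ∈ IntermediateField.adjoin k (Set.range (uu3 k)) := by
    have := inv_mem (hv 1)
    simpa [uu3] using this
  have e0 : vv k 0 ∈ IntermediateField.adjoin k (Set.range (uu3 k)) := by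
    have h2 := mul_mem (hv 0) e1
    have : uu3 k 0 * vv k 2 = vv k 0 := by
      simp only [uu3, Matrix.cons_val_zero]
      field_simp
    rwa [this] at h2
  have e2 : vv k 1 ∈ IntermediateField.adjoin k (Set.range (uu3 k)) := by
    have h2 := sub_mem (hv 2) (mul_mem (hv 0) e0)
    have : uu3 k 2 - uu3 k 0 * vv k 0 = vv k 1 := by
      simp only [uu3, Matrix.cons_val_zero, Matrix.cons_val]
      field_simp
      simp only [qq]
      ring
    rwa [this] at h2
  apply top_of_vv
  intro i
  fin_cases i
  · exact e0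
  · exact e2
  · exact e1

lemma formallySmooth_chart (i : Fin 5) (hi : i ≠ 4) :
    Algebra.FormallySmooth k (chart k (quad k) i) := by
  fin_cases i
  · change Algebra.FormallySmooth k (chart k (quad k) 0)
    rw [chart0]
    exact formallySmooth_of_algIndep _ algIndep_vv
  · change Algebra.FormallySmooth k (chart k (quad k) 1)
    rw [chart1]
    exact formallySmooth_of_algIndep _ (algIndep_of_adjoin trdeg_FF _ gen1)
  · change Algebra.FormallySmooth k (chart k (quad k) 2)
    rw [chart2]
    exact formallySmooth_of_algIndep _ (algIndep_of_adjoin trdeg_FF _ gen2)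
  · change Algebra.FormallySmooth k (chart k (quad k) 3)
    rw [chart3]
    exact formallySmooth_of_algIndep _ (algIndep_of_adjoin trdeg_FF _ gen3)
  · exact absurd rfl hi

end

section
variable {k : Type} [Field k] [IsAlgClosed k]

/-- every point lies in one of the first four charts -/
lemma point_chart {O : Subalgebra k (FF k)} (hO : O ∈ points k (quad k)) :
    ∃ i : Fin 5, i ≠ 4 ∧ ∃ x : chart k (quad k) i →ₐ[k] k, O = locHom (chart k (quad k) i) x := by
  obtain ⟨l, hl, x, rfl⟩ := mem_points_iff.1 hO
  by_cases h4 : l = 4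
  · subst h4
    have hrel : (⟨_, mem_chart (quad k) 4 0⟩ : chart k (quad k) 4) * ⟨_, mem_chart (quad k) 4 1⟩ -
        ⟨_, mem_chart (quad k) 4 2⟩ * ⟨_, mem_chart (quad k) 4 3⟩ = 1 := by
      apply Subtype.ext
      push_cast
      have h0 := vv_ne_zero (k := k) 0
      simp only [quad, Matrix.cons_val_zero, Matrix.cons_val_one, Matrix.cons_val]
      field_simp
      simp only [qq]
      ring
    have hx := congrArg x hrel
    rw [map_sub, map_mul, map_mul, map_one] at hx
    have hex : ∃ i : Fin 5, i ≠ 4 ∧ x ⟨_, mem_chart (quad k) 4 i⟩ ≠ 0 := by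
      by_contra hne
      push Not at hne
      rw [hne 0 (by decide), hne 2 (by decide)] at hx
      simp at hx
    obtain ⟨i, hi, hxi⟩ := hex
    obtain ⟨x', hx'⟩ := chart_change (l := 4) (i := i) (quad_ne_zero 4) (quad_ne_zero i) x (by
      intro j
      rw [mem_locHom]
      refine ⟨⟨_, mem_chart (quad k) 4 j⟩, ⟨_, mem_chart (quad k) 4 i⟩, hxi, ?_⟩
      have hi0 := quad_ne_zero (k := k) i
      have h40 := quad_ne_zero (k := k) 4
      push_cast
      field_simp)
    exact ⟨i, hi, x', hx'⟩
  · exact ⟨l, h4, x, rfl⟩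

theorem quad_smooth : IsSmooth k (quad k) := by
  intro O hO
  obtain ⟨i, hi, x, rfl⟩ := point_chart hO
  exact formallySmooth_locHom _ _ (formallySmooth_chart i hi)

theorem quad_variety : IsVariety k (quad k) := by
  refine ⟨0, one_ne_zero, ?_⟩
  apply top_of_vv
  intro i
  have h0 : quad k 0 = 1 := rfl
  have hm : ∀ j, quad k j ∈ IntermediateField.adjoin k (Set.range fun j => quad k j / quad k 0) := by
    intro j
    apply IntermediateField.subset_adjoin
    exact ⟨j, by simp [h0]⟩
  fin_cases i
  · exact hm 4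
  · exact hm 2
  · exact hm 3

end

end Q36.AT
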