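import Mathlib

set_option autoImplicit false

namespace Q36.AT

section Varieties
variable (k : Type) [Field k] {K : Type} [Field K] [Algebra k K] {N : ℕ}

/-- The coordinate ring of the `i`-th standard affine chart of the projective variety whose
generic point has homogeneous coordinates `f 0 : ... : f N`, as a subring of the function
field `K`. -/
def chart (f : Fin (N + 1) → K) (i : Fin (N + 1)) : Subalgebra k K :=
  Algebra.adjoin k (Set.range fun j => f j / f i)

variable {k}

/-- The local ring `A_𝔪`, as a subring of `K`. -/
def locAt (A : Subalgebra k K) (𝔪 : Ideal A) (h𝔪 : 𝔪.IsPrime) : Subalgebra k K where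
  carrier := {z | ∃ a s : A, s ∉ 𝔪 ∧ z * s = a}
  mul_mem' := by
    rintro x y ⟨a, s, hs, h⟩ ⟨a', s', hs', h'⟩
    refine ⟨a * a', s * s', fun hh => (h𝔪.mem_or_mem hh).elim hs hs', ?_⟩
    push_cast
    rw [← h, ← h']; ring
  add_mem' := by
    rintro x y ⟨a, s, hs, h⟩ ⟨a', s', hs', h'⟩
    refine ⟨a * s' + a' * s, s * s', fun hh => (h𝔪.mem_or_mem hh).elim hs hs', ?_⟩
    push_cast
    rw [← h, ← h']; ring
  algebraMap_mem' := fun c =>
    ⟨algebraMap k A c, 1, fun hh => h𝔪.ne_top ((Ideal.eq_top_iff_one _).2 hh), by simp⟩

variable (k)

/-- The closed points of the projective variety `X ⊆ ℙ^N` with function field `K` and generic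
point `f 0 : ... : f N`; each closed point is represented by its local ring. -/
def points (f : Fin (N + 1) → K) : Set (Subalgebra k K) :=
  {O | ∃ i, f i ≠ 0 ∧ ∃ (𝔪 : Ideal (chart k f i)) (h : 𝔪.IsMaximal),
    O = locAt (chart k f i) 𝔪 h.isPrime}

/-- `f 0 : ... : f N` is the generic point of a projective variety over `k` whose function field
is (all of) `K`. -/
def IsVariety (f : Fin (N + 1) → K) : Prop :=
  ∃ i, f i ≠ 0 ∧ IntermediateField.adjoin k (Set.range fun j => f j / f i) = ⊤

/-- All local rings at closed points are (formally) smooth over `k`. -/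
def IsSmooth (f : Fin (N + 1) → K) : Prop :=
  ∀ O ∈ points k f, Algebra.FormallySmooth k O

/-- The variety `X` is isomorphic to a projective space: for some `n` there are
homogeneous coordinates `T 0 : ... : T n` in the function field of `X`, with algebraically
independent ratios, such that the local rings of `X` are exactly the local rings of `ℙ^n` with
these homogeneous coordinates. -/
def IsProjectiveSpace (f : Fin (N + 1) → K) : Prop :=
  ∃ (n : ℕ) (T : Fin (n + 1) → K), (∀ j, T j ≠ 0) ∧
    AlgebraicIndependent k (fun j : Fin n => T j.succ / T 0) ∧ points k T = points k f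

/-- A line bundle on `X`, as a subsheaf of the constant sheaf `K` (a Cartier divisor): at every
point a generator `gen O` of the stalk, such that near each point one generator works. -/
structure LineBundle (f : Fin (N + 1) → K) where
  /-- the local generator -/
  gen : Subalgebra k K → K
  gen_ne_zero : ∀ O ∈ points k f, gen O ≠ 0
  locally_constant : ∀ O ∈ points k f, ∃ (S : Finset K) (l : K), (∀ z ∈ S, z ∈ O) ∧ l ≠ 0 ∧
    ∀ O' ∈ points k f, (∀ z ∈ S, z ∈ O') → gen O' / l ∈ O' ∧ l / gen O' ∈ O'

variable {k}

/-- A line bundle is ample if a positive power of it is the pull-back of `𝒪(1)` under a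
closed embedding into a projective space. -/
def LineBundle.IsAmple {f : Fin (N + 1) → K} (L : LineBundle k f) : Prop :=
  ∃ (m : ℕ) (M : ℕ) (g : Fin (M + 1) → K), 0 < m ∧ points k g = points k f ∧
    ∀ O ∈ points k f, (∀ j, g j / L.gen O ^ m ∈ O) ∧ ∃ j, g j ≠ 0 ∧ L.gen O ^ m / g j ∈ O

/-- The stalk of the tangent sheaf `T_X` at a point: the derivations of the local ring,
as a set of derivations of the function field. -/
def tangentStalk (O : Subalgebra k K) : Set (Derivation k K K) :=
  {D | ∀ b ∈ O, D b ∈ O}

/-- The derivation `D` of the function field defines a morphism of sheaves `L → T_X`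
(a local section `s` of `L` goes to the vector field `s • D`). -/
def LineBundle.MapsToTangent {f : Fin (N + 1) → K} (L : LineBundle k f)
    (D : Derivation k K K) : Prop :=
  ∀ O ∈ points k f, L.gen O • D ∈ tangentStalk O

end Varieties

end Q36.AT
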