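import Pool.Agent.Q36.AT.Proj

set_option autoImplicit false
set_option linter.all false

open MvPolynomial

namespace Q36.AT

open Pool.Agent.H371R3.GQ (scal scal_hom coeff_scal scal_ne_zero lin_eq)

section
variable {k : Type} [Field k]

/-- the quadratic form -/
noncomputable def QQ (k : Type) [Field k] : MvPolynomial (Fin 3) k := X 0 ^ 2 + X 1 * X 2

lemma QQ_hom : (QQ k).IsHomogeneous 2 := by
  apply IsHomogeneous.add
  · exact (isHomogeneous_X k 0).pow 2
  · exact (isHomogeneous_X k 1).mul (isHomogeneous_X k 2)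

lemma algebraMap_QQ : algebraMap (MvPolynomial (Fin 3) k) (FF k) (QQ k) = qq k := by
  unfold QQ qq vv
  rw [map_add, map_mul, map_pow]

lemma QQ_ne_zero : QQ k ≠ 0 := by
  intro h
  apply qq_ne_zero (k := k)
  rw [← algebraMap_QQ, h, map_zero]

lemma scal_QQ_pow (N : ℕ) : scal (QQ k ^ N) = Polynomial.C (QQ k ^ N) * Polynomial.X ^ (2 * N) := by
  rw [scal_hom (QQ_hom.pow N)]

lemma degree_scal_QQ_pow (N : ℕ) : (scal (QQ k ^ N)).degree = (2 * N : ℕ) := by
  rw [scal_QQ_pow, Polynomial.degree_C_mul_X_pow _ (pow_ne_zero _ QQ_ne_zero)]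

lemma le_of_lt' {N : ℕ} {h : MvPolynomial (Fin 3) k} {c : k}
    (hl : (scal (h - C c * QQ k ^ N)).degree < (2 * N : ℕ)) : (scal h).degree ≤ (2 * N : ℕ) := by
  have : h = (h - C c * QQ k ^ N) + C c * QQ k ^ N := by ring
  rw [this, map_add]
  refine (Polynomial.degree_add_le _ _).trans (max_le hl.le ?_)
  rw [map_mul, Polynomial.degree_mul, degree_scal_QQ_pow]
  have h1 : (scal (C c : MvPolynomial (Fin 3) k)).degree ≤ 0 := by
    rw [scal_hom (isHomogeneous_C _ c), pow_zero, mul_one]
    exact Polynomial.degree_C_le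
  calc _ ≤ (0 : WithBot ℕ) + (2 * N : ℕ) := by gcongr
    _ = _ := zero_add _

lemma mul_lt' {N N' : ℕ} {r r' : MvPolynomial (Fin 3) k} (h : (scal r).degree ≤ (2 * N : ℕ))
    (h' : (scal r').degree < (2 * N' : ℕ)) : (scal (r * r')).degree < (2 * (N + N') : ℕ) := by
  rw [map_mul, Polynomial.degree_mul]
  calc _ ≤ ((2 * N : ℕ) : WithBot ℕ) + (scal r').degree := by gcongr
    _ < ((2 * N : ℕ) : WithBot ℕ) + (2 * N' : ℕ) := by
      exact WithBot.add_lt_add_left (WithBot.natCast_ne_bot _) h'
    _ = _ := by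
      rw [← Nat.cast_add]; congr 1; ring

/-- elements of the second chart -/
lemma chart1_form {u : FF k} (hu : u ∈ chart k (quad k) 1) :
    ∃ (N : ℕ) (h : MvPolynomial (Fin 3) k) (c : k),
      u * qq k ^ N = algebraMap _ (FF k) h ∧
      (scal (h - C c * QQ k ^ N)).degree < (2 * N : ℕ) := by
  rw [chart1] at hu
  have hq := qq_ne_zero (k := k)
  induction hu using Algebra.adjoin_induction with
  | mem x hx =>
    obtain ⟨i, rfl⟩ := hx
    refine ⟨1, X i, 0, ?_, ?_⟩
    · have : uu1 k i * qq k = vv k i := by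
        fin_cases i <;> simp [uu1] <;> field_simp
      rw [pow_one, this]; rfl
    · rw [C_0, zero_mul, sub_zero, scal_hom (isHomogeneous_X k i),
        Polynomial.degree_C_mul_X_pow _ (X_ne_zero i)]
      norm_num
  | algebraMap r =>
    refine ⟨0, C r, r, ?_, ?_⟩
    · rw [pow_zero, mul_one, ← MvPolynomial.algebraMap_eq, ← IsScalarTower.algebraMap_apply]
    · rw [pow_zero, mul_one, sub_self, map_zero, Polynomial.degree_zero]
      exact WithBot.bot_lt_coe _
  | add x y hx hy h1 h2 =>
    obtain ⟨N, h, c, e, hl⟩ := h1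
    obtain ⟨N', h', c', e', hl'⟩ := h2
    refine ⟨N + N', h * QQ k ^ N' + h' * QQ k ^ N, c + c', ?_, ?_⟩
    · rw [map_add, map_mul, map_mul, map_pow, map_pow, algebraMap_QQ, ← e, ← e']
      ring
    · have : h * QQ k ^ N' + h' * QQ k ^ N - C (c + c') * QQ k ^ (N + N') =
          QQ k ^ N' * (h - C c * QQ k ^ N) + QQ k ^ N * (h' - C c' * QQ k ^ N') := by
        rw [C_add]; ring
      rw [this, map_add]
      apply (Polynomial.degree_add_le _ _).trans_lt
      apply max_lt
      · have := mul_lt' (degree_scal_QQ_pow (k := k) N').le hl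
        rwa [add_comm N' N] at this
      · exact mul_lt' (degree_scal_QQ_pow (k := k) N).le hl'
  | mul x y hx hy h1 h2 =>
    obtain ⟨N, h, c, e, hl⟩ := h1
    obtain ⟨N', h', c', e', hl'⟩ := h2
    refine ⟨N + N', h * h', c * c', ?_, ?_⟩
    · rw [map_mul, ← e, ← e']
      ring
    · have : h * h' - C (c * c') * QQ k ^ (N + N') =
          h * (h' - C c' * QQ k ^ N') + (C c' * QQ k ^ N') * (h - C c * QQ k ^ N) := by
        rw [C_mul]; ring
      rw [this, map_add]
      apply (Polynomial.degree_add_le _ _).trans_lt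
      apply max_lt
      · exact mul_lt' (le_of_lt' hl) hl'
      · have h3 : (scal (C c' * QQ k ^ N')).degree ≤ (2 * N' : ℕ) := by
          apply le_of_lt' (c := c')
          rw [sub_self, map_zero, Polynomial.degree_zero]
          exact WithBot.bot_lt_coe _
        have := mul_lt' h3 hl
        rwa [add_comm N' N] at this

lemma eval_one_scal (r : MvPolynomial (Fin 3) k) : (scal r).eval 1 = r := by
  have : ((Polynomial.aeval (1 : MvPolynomial (Fin 3) k)).restrictScalars k).comp
      (scal : MvPolynomial (Fin 3) k →ₐ[k] _) = AlgHom.id k _ := by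
    apply MvPolynomial.algHom_ext
    intro i
    simp [scal]
  have h := congrArg (fun g => g r) this
  simpa [Polynomial.aeval_def, Polynomial.eval₂_id] using h

lemma low_degree {r : MvPolynomial (Fin 3) k} (h : (scal r).degree < 2) :
    ∃ (a : k) (b : Fin 3 → k), r = C a + ∑ j, C (b j) * X j := by
  have h1 := eval_one_scal r
  have h2 : (scal r).natDegree < 2 := by
    by_cases h0 : scal r = 0
    · rw [h0]; simp
    · exact (Polynomial.natDegree_lt_iff_degree_lt h0).2 h
  rw [Polynomial.eval_eq_sum_range' h2] at h1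
  rw [Finset.sum_range_succ, Finset.sum_range_one, coeff_scal, coeff_scal] at h1
  simp only [pow_zero, one_pow, mul_one] at h1
  rw [homogeneousComponent_zero] at h1
  refine ⟨coeff 0 r, fun j => coeff (Finsupp.single j 1) (homogeneousComponent 1 r), ?_⟩
  rw [← lin_eq (homogeneousComponent_isHomogeneous 1 r)]
  exact h1.symm

/-- global sections of `𝒪(1)` on the quadric -/
lemma sections_quad {γ : FF k} (h0 : γ / quad k 0 ∈ chart k (quad k) 0)
    (h1 : γ / quad k 1 ∈ chart k (quad k) 1) : γ ∈ Submodule.span k (Set.range (quad k)) := by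
  have hq := qq_ne_zero (k := k)
  have e0 : quad k 0 = 1 := rfl
  rw [e0, div_one, chart0, Algebra.adjoin_range_eq_range_aeval] at h0
  obtain ⟨g, hg⟩ := h0
  have hg' : algebraMap _ (FF k) g = γ := by
    rw [algebraMap_eq_aeval]; exact hg
  obtain ⟨N, h, c, e, hl⟩ := chart1_form h1
  have e1 : quad k 1 = qq k := rfl
  rw [e1] at e
  have e2 : g * QQ k ^ N = h * QQ k := by
    apply IsFractionRing.injective (MvPolynomial (Fin 3) k) (FF k)
    rw [map_mul, map_mul, map_pow, algebraMap_QQ, ← e, hg']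
    field_simp
  have e3 : (g - C c * QQ k) * QQ k ^ N = QQ k ^ 1 * (h - C c * QQ k ^ N) := by
    linear_combination e2
  have h3 : (scal (g - C c * QQ k)).degree < 2 := by
    have h4 := mul_lt' (degree_scal_QQ_pow (k := k) 1).le hl
    rw [← e3, map_mul, Polynomial.degree_mul, degree_scal_QQ_pow] at h4
    have h5 : ((2 * (1 + N) : ℕ) : WithBot ℕ) = 2 + (2 * N : ℕ) := by
      rw [← Nat.cast_ofNat (R := WithBot ℕ), ← Nat.cast_add]; congr 1; ring
    rw [h5] at h4
    exact lt_of_add_lt_add_right h4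
  obtain ⟨a, b, hab⟩ := low_degree h3
  have h6 : g = C a + ∑ j, C (b j) * X j + C c * QQ k := by
    rw [← hab]; ring
  have hC : ∀ r : k, algebraMap (MvPolynomial (Fin 3) k) (FF k) (C r) = algebraMap k (FF k) r := by
    intro r
    rw [← MvPolynomial.algebraMap_eq, ← IsScalarTower.algebraMap_apply]
  have h7 : γ = a • quad k 0 + (b 0 • quad k 4 + b 1 • quad k 2 + b 2 • quad k 3) +
      c • quad k 1 := by
    rw [← hg', h6]
    rw [Fin.sum_univ_three]
    simp only [map_add, map_mul, hC, algebraMap_QQ, Algebra.smul_def]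
    have v0 : quad k 4 = vv k 0 := rfl
    have v1 : quad k 2 = vv k 1 := rfl
    have v2 : quad k 3 = vv k 2 := rfl
    rw [e0, e1, v0, v1, v2, mul_one]
    rfl
  rw [h7]
  have hs : ∀ j, quad k j ∈ Submodule.span k (Set.range (quad k)) := fun j =>
    Submodule.subset_span ⟨j, rfl⟩
  exact add_mem (add_mem (Submodule.smul_mem _ _ (hs 0)) (add_mem (add_mem
    (Submodule.smul_mem _ _ (hs 4)) (Submodule.smul_mem _ _ (hs 2)))
    (Submodule.smul_mem _ _ (hs 3)))) (Submodule.smul_mem _ _ (hs 1))

lemma quad_indep : LinearIndependent k (quad k) := by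
  rw [Fintype.linearIndependent_iff]
  intro c hc
  have hC : ∀ r : k, algebraMap (MvPolynomial (Fin 3) k) (FF k) (C r) = algebraMap k (FF k) r := by
    intro r
    rw [← MvPolynomial.algebraMap_eq, ← IsScalarTower.algebraMap_apply]
  have h1 : (C (c 0) + C (c 1) * QQ k + C (c 2) * X 1 + C (c 3) * X 2 + C (c 4) * X 0 :
      MvPolynomial (Fin 3) k) = 0 := by
    apply IsFractionRing.injective (MvPolynomial (Fin 3) k) (FF k)
    rw [map_zero, ← hc]
    simp only [map_add, map_mul, hC, algebraMap_QQ, Algebra.smul_def, Fin.sum_univ_five]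
    have e0 : quad k 0 = 1 := rfl
    have e1 : quad k 1 = qq k := rfl
    have v0 : quad k 4 = vv k 0 := rfl
    have v1 : quad k 2 = vv k 1 := rfl
    have v2 : quad k 3 = vv k 2 := rfl
    rw [e0, e1, v0, v1, v2, mul_one]
    rfl
  unfold QQ at h1
  have g0 := congrArg (eval ![0, 0, 0]) h1
  have g1 := congrArg (eval ![0, 1, 0]) h1
  have g2 := congrArg (eval ![0, 0, 1]) h1
  have g3 := congrArg (eval ![0, 1, 1]) h1
  have g4 := congrArg (eval ![1, 0, 0]) h1
  simp at g0 g1 g2 g3 g4
  rw [g0] at g1 g2 g3 g4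
  rw [zero_add] at g1 g2
  rw [g1, g2] at g3
  simp at g3
  rw [g3] at g4
  simp at g4
  intro i
  fin_cases i
  · exact g0
  · exact g3
  · exact g1
  · exact g2
  · exact g4

lemma card_le_of_span {V : Type} [AddCommGroup V] [Module k V] {a b : ℕ} {v : Fin a → V}
    (hv : LinearIndependent k v) (w : Fin b → V)
    (h : ∀ i, v i ∈ Submodule.span k (Set.range w)) : a ≤ b := by
  have h1 : Module.finrank k (Submodule.span k (Set.range w)) ≤ b := by
    have := finrank_range_le_card (R := k) w
    simpa [Set.finrank] using this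
  have h2 : LinearIndependent k (fun i => (⟨v i, h i⟩ : Submodule.span k (Set.range w))) := by
    apply LinearIndependent.of_comp (Submodule.span k (Set.range w)).subtype
    exact hv
  haveI : Module.Finite k (Submodule.span k (Set.range w)) :=
    Module.Finite.span_of_finite k (Set.finite_range w)
  have h3 := h2.fintype_card_le_finrank
  rw [Fintype.card_fin] at h3
  omega

end

section
variable {k : Type} [Field k] [IsAlgClosed k]

/-- exponents of six monomials -/
def ee : Fin 6 → Fin 3 → ℕ :=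
  ![![0, 0, 0], ![1, 0, 0], ![0, 1, 0], ![0, 0, 1], ![2, 0, 0], ![0, 2, 0]]

lemma ee_inj : Function.Injective ee := by decide

lemma ee_sum : ∀ a, ∑ j, ee a j ≤ 2 := by decide

noncomputable def ss (m : ℕ) (a : Fin 6) : Fin 4 →₀ ℕ :=
  Finsupp.equivFunOnFinite.symm (Fin.cons (m - ∑ j, ee a j) (ee a))

lemma ss_inj (m : ℕ) : Function.Injective (ss m) := by
  intro a b h
  apply ee_inj
  have h1 := Finsupp.equivFunOnFinite.symm.injective h
  exact (Fin.cons_injective2 h1).2

lemma ss_degree {m : ℕ} (hm : 2 ≤ m) (a : Fin 6) : (ss m a).degree = m := by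
  rw [Finsupp.degree_eq_sum, Fin.sum_univ_succ]
  have h0 : (ss m a) 0 = m - ∑ j, ee a j := rfl
  have h1 : ∀ j : Fin 3, (ss m a) j.succ = ee a j := fun j => rfl
  rw [h0]
  simp only [h1]
  have := ee_sum a
  omega

theorem quad_not_proj : ¬ IsProjectiveSpace k (quad k) := by
  rintro ⟨n, T, hT, hind, hpts⟩
  haveI : Infinite k := IsAlgClosed.instInfinite
  -- the dimension is three
  have hgen : IntermediateField.adjoin k (Set.range fun j : Fin n => T j.succ / T 0) = ⊤ := by
    rw [eq_top_iff]
    intro z _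
    obtain ⟨d, G, H, hG, hH, hH0, hz⟩ := ratio quad_variety hpts z
    have hval : ∀ P : MvPolynomial (Fin (n + 1)) k, aeval (fun j => T j / T 0) P ∈
        IntermediateField.adjoin k (Set.range fun j : Fin n => T j.succ / T 0) := by
      intro P
      have : Algebra.adjoin k (Set.range fun j => T j / T 0) ≤
          (IntermediateField.adjoin k (Set.range fun j : Fin n => T j.succ / T 0)).toSubalgebra := by
        rw [Algebra.adjoin_le_iff]
        rintro _ ⟨j, rfl⟩
        simp only [SetLike.mem_coe, IntermediateField.mem_toSubalgebra]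
        refine Fin.cases ?_ (fun j => ?_) j
        · rw [div_self (hT 0)]; exact one_mem _
        · exact IntermediateField.subset_adjoin _ _ ⟨j, rfl⟩
      apply this
      rw [Algebra.adjoin_range_eq_range_aeval]
      exact ⟨P, rfl⟩
    rw [aeval_div_homog hG (hT 0) T, aeval_div_homog hH (hT 0) T] at hz
    rw [aeval_div_homog hH (hT 0) T] at hH0
    have h1 : aeval (fun j => T j / T 0) H ≠ 0 := right_ne_zero_of_mul hH0
    have h2 : z = aeval (fun j => T j / T 0) G / aeval (fun j => T j / T 0) H := by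
      rw [eq_div_iff h1]
      apply mul_left_cancel₀ (pow_ne_zero d (hT 0))
      rw [← hz]; ring
    rw [h2]
    exact div_mem (hval G) (hval H)
  have hn : n = 3 := by
    have h1 := trdeg_of_gen _ hind hgen
    rw [trdeg_FF] at h1
    exact_mod_cast h1.symm
  subst hn
  obtain ⟨m, lam, P, hlam, hP, hsec⟩ := proj_key quad_variety hT hind hpts
  have hV : ∀ G : MvPolynomial (Fin 4) k, G.IsHomogeneous m →
      lam * aeval T G ∈ Submodule.span k (Set.range (quad k)) := fun G hG =>
    sections_quad (hsec G hG 0 (quad_ne_zero 0)) (hsec G hG 1 (quad_ne_zero 1))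
  by_cases hm : 2 ≤ m
  · -- six independent sections
    have hli : LinearIndependent k (fun a : Fin 6 => lam * aeval T (monomial (ss m a) (1 : k))) := by
      rw [Fintype.linearIndependent_iff]
      intro c hc a
      have h1 : lam * aeval T (∑ a, c a • monomial (ss m a) (1 : k)) = 0 := by
        rw [← hc, map_sum, Finset.mul_sum]
        apply Finset.sum_congr rfl
        intro a _
        rw [map_smul, mul_smul_comm]
      have h2 := (mul_eq_zero.1 h1).resolve_left hlam
      have h3 : (∑ a, c a • monomial (ss m a) (1 : k)).IsHomogeneous m := by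
        apply IsHomogeneous.sum
        intro a _
        rw [smul_monomial]
        exact isHomogeneous_monomial _ (ss_degree hm a)
      have h4 := hom_inj hT hind h3 h2
      have h5 := congrArg (coeff (ss m a)) h4
      rw [coeff_sum, Finset.sum_eq_single a] at h5
      · simpa using h5
      · intro b _ hb
        rw [coeff_smul, coeff_monomial, if_neg, smul_zero]
        intro h
        exact hb (ss_inj m h)
      · simp
    have := card_le_of_span hli (quad k) (fun a => hV _ (isHomogeneous_monomial _ (ss_degree hm a)))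
    omega
  · have h1 : ∀ j, quad k j ∈ Submodule.span k (Set.range fun i : Fin 4 => lam * T i ^ m) := by
      intro j
      rw [(hP j).2, (P j).as_sum, map_sum, Finset.mul_sum]
      apply Submodule.sum_mem
      intro d hd
      have hdeg : d.degree = m := by
        by_contra h
        exact (mem_support_iff.1 hd) ((hP j).1.coeff_eq_zero h)
      rw [aeval_monomial]
      have h2 : ∃ i : Fin 4, (d.prod fun i e => T i ^ e) = T i ^ m := by
        rw [Finsupp.degree_eq_sum, Fin.sum_univ_four] at hdeg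
        rw [Finsupp.prod_fintype _ _ (by simp), Fin.prod_univ_four]
        rcases (by omega : (m = 0 ∧ d 0 = 0 ∧ d 1 = 0 ∧ d 2 = 0 ∧ d 3 = 0) ∨
          (m = 1 ∧ d 0 = 1 ∧ d 1 = 0 ∧ d 2 = 0 ∧ d 3 = 0) ∨
          (m = 1 ∧ d 0 = 0 ∧ d 1 = 1 ∧ d 2 = 0 ∧ d 3 = 0) ∨
          (m = 1 ∧ d 0 = 0 ∧ d 1 = 0 ∧ d 2 = 1 ∧ d 3 = 0) ∨
          (m = 1 ∧ d 0 = 0 ∧ d 1 = 0 ∧ d 2 = 0 ∧ d 3 = 1)) with h | h | h | h | h
        · exact ⟨0, by rw [h.1, h.2.1, h.2.2.1, h.2.2.2.1, h.2.2.2.2]; ring⟩
        · exact ⟨0, by rw [h.1, h.2.1, h.2.2.1, h.2.2.2.1, h.2.2.2.2]; ring⟩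
        · exact ⟨1, by rw [h.1, h.2.1, h.2.2.1, h.2.2.2.1, h.2.2.2.2]; ring⟩
        · exact ⟨2, by rw [h.1, h.2.1, h.2.2.1, h.2.2.2.1, h.2.2.2.2]; ring⟩
        · exact ⟨3, by rw [h.1, h.2.1, h.2.2.1, h.2.2.2.1, h.2.2.2.2]; ring⟩
      obtain ⟨i, hi⟩ := h2
      rw [hi]
      have h3 : lam * (algebraMap k (FF k) (coeff d (P j)) * T i ^ m) =
          coeff d (P j) • (lam * T i ^ m) := by
        rw [Algebra.smul_def]; ring
      rw [h3]
      exact Submodule.smul_mem _ _ (Submodule.subset_span ⟨i, rfl⟩)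
    have := card_le_of_span quad_indep _ h1
    omega

end

end Q36.AT
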