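import Pool.Agent.Q36.AT.Defs

set_option autoImplicit false
set_option linter.all false

namespace Q36.AT

section
variable {k : Type} [Field k] {K : Type} [Field K] [Algebra k K] {N : ℕ}

/-- local ring at a `k`-point -/
def locHom (A : Subalgebra k K) (x : A →ₐ[k] k) : Subalgebra k K :=
  locAt A (RingHom.ker x) (RingHom.ker_isPrime x)

lemma mem_locAt {A : Subalgebra k K} {𝔪 : Ideal A} {h : 𝔪.IsPrime} {z : K} :
    z ∈ locAt A 𝔪 h ↔ ∃ a s : A, s ∉ 𝔪 ∧ z * s = a := Iff.rfl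

lemma mem_locHom {A : Subalgebra k K} {x : A →ₐ[k] k} {z : K} :
    z ∈ locHom A x ↔ ∃ a s : A, x s ≠ 0 ∧ z * s = a := by
  unfold locHom
  rw [mem_locAt]
  simp only [RingHom.mem_ker]

lemma le_locHom (A : Subalgebra k K) (x : A →ₐ[k] k) : A ≤ locHom A x := by
  intro a ha
  rw [mem_locHom]
  exact ⟨⟨a, ha⟩, 1, by simp, by simp⟩

lemma coe_ne_zero_of {A : Subalgebra k K} {x : A →ₐ[k] k} {s : A} (h : x s ≠ 0) :
    (s : K) ≠ 0 := by
  intro h0
  apply h
  have : s = 0 := by exact_mod_cast h0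
  rw [this, map_zero]

/-- the canonical residue map on the local ring -/
lemma exists_ev (A : Subalgebra k K) (x : A →ₐ[k] k) :
    ∃ e : locHom A x →ₐ[k] k, (∀ a : A, e ⟨a, le_locHom A x a.2⟩ = x a) ∧
      ∀ z : locHom A x, e z ≠ 0 → (z : K)⁻¹ ∈ locHom A x := by
  classical
  have key : ∀ z : locHom A x, ∃ c : k, ∀ a s : A, x s ≠ 0 → (z : K) * s = a → c * x s = x a := by
    rintro ⟨z, hz⟩
    obtain ⟨a, s, hs, h⟩ := mem_locHom.1 hz
    refine ⟨x a / x s, ?_⟩
    intro a' s' hs' h'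
    have : a' * s = a * s' := by
      apply Subtype.ext
      push_cast
      rw [← h, ← h']
      ring
    have := congrArg x this
    rw [map_mul, map_mul] at this
    field_simp
    linear_combination -this
  choose c hc using key
  have hval : ∀ a : A, c ⟨a, le_locHom A x a.2⟩ = x a := by
    intro a
    have := hc ⟨a, le_locHom A x a.2⟩ a 1 (by simp) (by simp)
    simpa using this
  have e1 : c 1 = 1 := by
    have := hc 1 1 1 (by simp) (by simp)
    simpa using this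
  have e0 : c 0 = 0 := by
    have := hc 0 0 1 (by simp) (by simp)
    simpa using this
  have em : ∀ u v, c (u * v) = c u * c v := by
    rintro ⟨z, hz⟩ ⟨z', hz'⟩
    obtain ⟨a, s, hs, h⟩ := mem_locHom.1 hz
    obtain ⟨a', s', hs', h'⟩ := mem_locHom.1 hz'
    have h1 := hc ⟨z, hz⟩ a s hs h
    have h2 := hc ⟨z', hz'⟩ a' s' hs' h'
    have h3 := hc (⟨z, hz⟩ * ⟨z', hz'⟩) (a * a') (s * s') (by rw [map_mul]; exact mul_ne_zero hs hs')
      (by push_cast; rw [← h, ← h']; ring)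
    rw [map_mul, map_mul, ← h1, ← h2] at h3
    have h4 : x s * x s' ≠ 0 := mul_ne_zero hs hs'
    apply mul_right_cancel₀ h4
    rw [h3]; ring
  have ea : ∀ u v, c (u + v) = c u + c v := by
    rintro ⟨z, hz⟩ ⟨z', hz'⟩
    obtain ⟨a, s, hs, h⟩ := mem_locHom.1 hz
    obtain ⟨a', s', hs', h'⟩ := mem_locHom.1 hz'
    have h1 := hc ⟨z, hz⟩ a s hs h
    have h2 := hc ⟨z', hz'⟩ a' s' hs' h'
    have h3 := hc (⟨z, hz⟩ + ⟨z', hz'⟩) (a * s' + a' * s) (s * s')
      (by rw [map_mul]; exact mul_ne_zero hs hs')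
      (by push_cast; rw [← h, ← h']; ring)
    rw [map_mul, map_add, map_mul, map_mul, ← h1, ← h2] at h3
    have h4 : x s * x s' ≠ 0 := mul_ne_zero hs hs'
    apply mul_right_cancel₀ h4
    rw [h3]; ring
  have ec : ∀ r : k, c (algebraMap k _ r) = r := by
    intro r
    have := hc (algebraMap k _ r) (algebraMap k A r) 1 (by simp) (by simp)
    rw [map_one, mul_one] at this
    rw [this]
    simp
  let φ : locHom A x →+* k :=
    { toFun := c
      map_one' := e1
      map_mul' := em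
      map_zero' := e0
      map_add' := ea }
  refine ⟨{ φ with commutes' := ec }, hval, ?_⟩
  · rintro ⟨z, hz⟩ hne
    replace hne : c ⟨z, hz⟩ ≠ 0 := hne
    obtain ⟨a, s, hs, h⟩ := mem_locHom.1 hz
    have h1 := hc ⟨z, hz⟩ a s hs h
    have ha : x a ≠ 0 := by
      rw [← h1]; exact mul_ne_zero hne hs
    rw [mem_locHom]
    refine ⟨s, a, ha, ?_⟩
    have hz0 : z ≠ 0 := by
      rintro rfl
      apply ha
      rw [zero_mul] at h
      have : a = 0 := by exact_mod_cast h.symm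
      rw [this, map_zero]
    rw [← h]
    field_simp

/-- abstract characterization of the local ring -/
lemma eq_locHom (A O : Subalgebra k K) (e : O →ₐ[k] k) (hA : A ≤ O)
    (hinv : ∀ z : O, e z ≠ 0 → (z : K)⁻¹ ∈ O) (x : A →ₐ[k] k)
    (hx : ∀ a : A, x a = e ⟨a, hA a.2⟩)
    (hfr : ∀ z : O, ∃ a s : A, x s ≠ 0 ∧ (z : K) * s = a) : O = locHom A x := by
  ext z
  rw [mem_locHom]
  constructor
  · intro hz
    exact hfr ⟨z, hz⟩
  · rintro ⟨a, s, hs, h⟩
    have h1 := hinv ⟨s, hA s.2⟩ (by rw [← hx]; exact hs)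
    have hs0 := coe_ne_zero_of hs
    have : z = a * (s : K)⁻¹ := by
      rw [← h]; field_simp
    rw [this]
    exact O.mul_mem (hA a.2) h1

lemma mem_chart (f : Fin (N + 1) → K) (i j : Fin (N + 1)) : f j / f i ∈ chart k f i :=
  Algebra.subset_adjoin ⟨j, rfl⟩

lemma chart_le {f : Fin (N + 1) → K} {i : Fin (N + 1)} {O : Subalgebra k K}
    (h : ∀ j, f j / f i ∈ O) : chart k f i ≤ O := by
  unfold chart
  rw [Algebra.adjoin_le_iff]
  rintro _ ⟨j, rfl⟩
  exact h j

/-- change of charts -/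
lemma chart_change {f : Fin (N + 1) → K} {l i : Fin (N + 1)} (hl : f l ≠ 0) (hi : f i ≠ 0)
    (x : chart k f l →ₐ[k] k) (h : ∀ j, f j / f i ∈ locHom (chart k f l) x) :
    ∃ x' : chart k f i →ₐ[k] k, locHom (chart k f l) x = locHom (chart k f i) x' := by
  obtain ⟨O, hO⟩ : ∃ O, O = locHom (chart k f l) x := ⟨_, rfl⟩
  obtain ⟨e, he, hinv⟩ := exists_ev (chart k f l) x
  rw [← hO] at h ⊢
  have hAl : chart k f l ≤ O := by rw [hO]; exact le_locHom _ _
  obtain ⟨e, he, hinv⟩ : ∃ e : O →ₐ[k] k, (∀ a : chart k f l, e ⟨a, hAl a.2⟩ = x a) ∧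
      ∀ z : O, e z ≠ 0 → (z : K)⁻¹ ∈ O := by
    subst hO
    exact ⟨e, he, hinv⟩
  have hA : chart k f i ≤ O := chart_le h
  set x' : chart k f i →ₐ[k] k := e.comp (Subalgebra.inclusion hA) with hx'
  have hx'v : ∀ a, x' a = e ⟨a, hA a.2⟩ := fun a => rfl
  -- the transition function is a unit
  have hu : e ⟨f l / f i, h l⟩ ≠ 0 := by
    intro h0
    have h1 : (⟨f l / f i, h l⟩ : O) * ⟨f i / f l, hAl (mem_chart f l i)⟩ = 1 := by
      apply Subtype.ext
      push_cast
      field_simp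
    have := congrArg e h1
    rw [map_mul, h0, zero_mul, map_one] at this
    exact zero_ne_one this
  -- every element of chart l is in locHom (chart i) x'
  have hfr1 : ∀ a ∈ chart k f l, a ∈ locHom (chart k f i) x' := by
    apply chart_le (O := locHom (chart k f i) x')
    intro j
    rw [mem_locHom]
    refine ⟨⟨f j / f i, mem_chart f i j⟩, ⟨f l / f i, mem_chart f i l⟩, hu, ?_⟩
    push_cast
    field_simp
  refine ⟨x', eq_locHom _ _ e hA hinv x' hx'v ?_⟩
  rintro ⟨z, hz⟩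
  obtain ⟨a, s, hs, hzs⟩ := mem_locHom.1 (by rw [← hO]; exact hz)
  obtain ⟨a1, a2, ha2, ha⟩ := mem_locHom.1 (hfr1 a a.2)
  obtain ⟨s1, s2, hs2, hs'⟩ := mem_locHom.1 (hfr1 s s.2)
  refine ⟨a1 * s2, a2 * s1, ?_, ?_⟩
  · rw [map_mul]
    apply mul_ne_zero ha2
    intro h0
    apply hs
    rw [← he]
    have h3 : (⟨s, hAl s.2⟩ : O) * ⟨s2, hA s2.2⟩ = ⟨s1, hA s1.2⟩ := by
      apply Subtype.ext
      exact hs'
    have h4 := congrArg e h3
    rw [map_mul, ← hx'v, ← hx'v, h0] at h4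
    exact (mul_eq_zero.1 h4).resolve_right hs2
  · push_cast
    rw [← ha, ← hs', ← hzs]
    ring

end

section Closed
variable {k : Type} [Field k] [IsAlgClosed k] {K : Type} [Field K] [Algebra k K] {N : ℕ}

lemma chart_fg (f : Fin (N + 1) → K) (i : Fin (N + 1)) : (chart k f i).FG := by
  unfold chart
  rw [Subalgebra.fg_def]
  exact ⟨_, Set.finite_range _, rfl⟩

lemma exists_hom_of_isMaximal {A : Type} [CommRing A] [Algebra k A] [Algebra.FiniteType k A]
    (𝔪 : Ideal A) (h : 𝔪.IsMaximal) : ∃ x : A →ₐ[k] k, RingHom.ker x = 𝔪 := by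
  letI : Field (A ⧸ 𝔪) := Ideal.Quotient.field 𝔪
  have : Module.Finite k (A ⧸ 𝔪) := finite_of_finite_type_of_isJacobsonRing k (A ⧸ 𝔪)
  have hb := IsAlgClosed.algebraMap_bijective_of_isIntegral (k := k) (K := A ⧸ 𝔪)
  let e : k ≃ₐ[k] (A ⧸ 𝔪) := AlgEquiv.ofBijective (Algebra.ofId k _) hb
  refine ⟨e.symm.toAlgHom.comp (Ideal.Quotient.mkₐ k 𝔪), ?_⟩
  ext a
  rw [RingHom.mem_ker]
  simp [Ideal.Quotient.eq_zero_iff_mem]

lemma mem_points_iff {f : Fin (N + 1) → K} {O : Subalgebra k K} :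
    O ∈ points k f ↔ ∃ i, f i ≠ 0 ∧ ∃ x : chart k f i →ₐ[k] k, O = locHom (chart k f i) x := by
  constructor
  · rintro ⟨i, hi, 𝔪, hm, rfl⟩
    haveI : Algebra.FiniteType k (chart k f i) :=
      (chart k f i).fg_iff_finiteType.1 (chart_fg f i)
    obtain ⟨x, hx⟩ := exists_hom_of_isMaximal (k := k) 𝔪 hm
    refine ⟨i, hi, x, ?_⟩
    unfold locHom
    subst hx
    rfl
  · rintro ⟨i, hi, x, rfl⟩
    refine ⟨i, hi, RingHom.ker x, ?_, rfl⟩
    apply RingHom.ker_isMaximal_of_surjective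
    intro c
    exact ⟨algebraMap k _ c, by simp⟩

/-- an element in all local rings of points of a chart is in the coordinate ring -/
lemma mem_of_forall_locHom {A : Subalgebra k K} (hA : A.FG)
    {z : K} (hz0 : ∃ a s : A, s ≠ 0 ∧ z * s = a)
    (h : ∀ x : A →ₐ[k] k, z ∈ locHom A x) : z ∈ A := by
  haveI : Algebra.FiniteType k A := A.fg_iff_finiteType.1 hA
  let I : Ideal A :=
    { carrier := {s | z * s ∈ A}
      add_mem' := by
        intro a b ha hb
        simp only [Set.mem_setOf_eq] at *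
        push_cast
        rw [mul_add]
        exact A.add_mem ha hb
      zero_mem' := by simp
      smul_mem' := by
        intro c a ha
        simp only [Set.mem_setOf_eq, smul_eq_mul] at *
        push_cast
        rw [mul_left_comm]
        exact A.mul_mem c.2 ha }
  by_cases hI : I = ⊤
  · have : (1 : A) ∈ I := by rw [hI]; trivial
    have h1 : z * ((1 : A) : K) ∈ A := this
    simpa using h1
  · obtain ⟨𝔪, hm, hle⟩ := Ideal.exists_le_maximal I hI
    obtain ⟨x, hx⟩ := exists_hom_of_isMaximal (k := k) 𝔪 hm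
    obtain ⟨a, s, hs, hzs⟩ := mem_locHom.1 (h x)
    exfalso
    apply hs
    have : s ∈ I := by
      change z * s ∈ A
      rw [hzs]; exact a.2
    have := hle this
    rw [← hx] at this
    exact this

end Closed

end Q36.AT
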