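import Pool.Agent.Q36.AT.Tan
import Pool.Agent.H371R3.GQ.B1

set_option autoImplicit false
set_option linter.all false

open MvPolynomial

namespace Q36.AT

section
variable {k : Type} [Field k] {K : Type} [Field K] [Algebra k K] {N n : ℕ}

lemma aeval_smul_homog {p : MvPolynomial (Fin (n + 1)) k}
    {d : ℕ} (hd : p.IsHomogeneous d) (a : K) (x : Fin (n + 1) → K) :
    aeval (a • x) p = a ^ d * aeval x p := by
  rw [aeval_def, aeval_def, eval₂_eq, eval₂_eq, Finset.mul_sum]
  refine Finset.sum_congr rfl (fun m hm => ?_)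
  have hm2 : ∑ j ∈ m.support, m j = d := by
    have := hd (mem_support_iff.mp hm)
    rw [Finsupp.weight_apply] at this
    simpa [Finsupp.sum] using this
  have : ∏ y ∈ m.support, (a • x) y ^ m y = a ^ d * ∏ y ∈ m.support, x y ^ m y := by
    rw [← hm2, ← Finset.prod_pow_eq_pow_sum, ← Finset.prod_mul_distrib]
    refine Finset.prod_congr rfl (fun y _ => ?_)
    rw [Pi.smul_apply, smul_eq_mul, mul_pow]
  rw [this]; ring

lemma aeval_div_homog {p : MvPolynomial (Fin (n + 1)) k}
    {d : ℕ} (hd : p.IsHomogeneous d) {a : K} (ha : a ≠ 0) (x : Fin (n + 1) → K) :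
    aeval x p = a ^ d * aeval (fun j => x j / a) p := by
  rw [← aeval_smul_homog hd]
  have : x = a • fun j => x j / a := by
    ext j
    simp only [Pi.smul_apply, smul_eq_mul]
    field_simp
  rw [← this]

/-- homogeneous polynomials are determined by their value at the generic point -/
lemma hom_inj [Infinite k] {T : Fin (n + 1) → K} (hT : ∀ j, T j ≠ 0)
    (hind : AlgebraicIndependent k (fun j : Fin n => T j.succ / T 0))
    {H : MvPolynomial (Fin (n + 1)) k} {d : ℕ} (hH : H.IsHomogeneous d)
    (h0 : aeval T H = 0) : H = 0 := by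
  rw [aeval_div_homog hH (hT 0)] at h0
  have h1 : aeval (fun j => T j / T 0) H = 0 :=
    (mul_eq_zero.1 h0).resolve_left (pow_ne_zero _ (hT 0))
  let δ : MvPolynomial (Fin (n + 1)) k →ₐ[k] MvPolynomial (Fin n) k :=
    aeval (Fin.cons 1 X)
  have h2 : aeval (fun j => T j / T 0) H = aeval (fun j : Fin n => T j.succ / T 0) (δ H) := by
    have : (aeval (fun j => T j / T 0) : MvPolynomial (Fin (n + 1)) k →ₐ[k] K) =
        (aeval (fun j : Fin n => T j.succ / T 0)).comp δ := by
      apply MvPolynomial.algHom_ext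
      intro j
      refine Fin.cases ?_ (fun j => ?_) j
      · simp [δ, hT 0]
      · simp [δ]
    rw [this]; rfl
  rw [h2] at h1
  have h3 : δ H = 0 := by
    have := (algebraicIndependent_iff_injective_aeval.1 hind) (h1.trans (map_zero _).symm)
    exact this
  have h4 : (X 0 : MvPolynomial (Fin (n + 1)) k) * H = 0 := by
    apply MvPolynomial.funext
    intro x
    rw [map_mul, eval_X, map_zero]
    by_cases hx : x 0 = 0
    · rw [hx, zero_mul]
    · have h5 : eval x H = x 0 ^ d * eval (fun j => x j / x 0) H := by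
        have := aeval_div_homog (K := k) hH hx x
        simpa [MvPolynomial.aeval_eq_eval] using this
      have h6 : eval (fun j => x j / x 0) H = eval (fun j : Fin n => x j.succ / x 0) (δ H) := by
        have : (aeval (fun j => x j / x 0) : MvPolynomial (Fin (n + 1)) k →ₐ[k] k) =
            (aeval (fun j : Fin n => x j.succ / x 0)).comp δ := by
          apply MvPolynomial.algHom_ext
          intro j
          refine Fin.cases ?_ (fun j => ?_) j
          · simp [δ, hx]
          · simp [δ]
        have h7 := congrArg (fun g => g H) this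
        simpa [MvPolynomial.aeval_eq_eval] using h7
      rw [h5, h6, h3]; simp
  exact (mul_eq_zero.1 h4).resolve_left (X_ne_zero 0)

/-- the local ring of `ℙ^n` at the point `c` -/
def ptAt (T : Fin (n + 1) → K) (c : Fin (n + 1) → k) : Set K :=
  {z | ∃ (d : ℕ) (G H : MvPolynomial (Fin (n + 1)) k), G.IsHomogeneous d ∧ H.IsHomogeneous d ∧
    eval c H ≠ 0 ∧ z * aeval T H = aeval T G}

lemma chart_elem {T : Fin (n + 1) → K} {l : Fin (n + 1)} (hl : T l ≠ 0) {a : K}
    (ha : a ∈ chart k T l) : ∃ (d : ℕ) (G : MvPolynomial (Fin (n + 1)) k), G.IsHomogeneous d ∧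
      a = aeval (fun j => T j / T l) G := by
  unfold chart at ha
  induction ha using Algebra.adjoin_induction with
  | mem x hx =>
    obtain ⟨j, rfl⟩ := hx
    exact ⟨1, X j, isHomogeneous_X k j, by simp⟩
  | algebraMap r => exact ⟨0, C r, isHomogeneous_C _ r, by simp⟩
  | add x y hx hy h1 h2 =>
    obtain ⟨d, G, hG, rfl⟩ := h1
    obtain ⟨e, H, hH, rfl⟩ := h2
    refine ⟨d + e, G * X l ^ e + H * X l ^ d, ?_, ?_⟩
    · apply IsHomogeneous.add
      · have := hG.mul ((isHomogeneous_X k l).pow e)
        simpa using this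
      · have := hH.mul ((isHomogeneous_X k l).pow d)
        rw [one_mul, add_comm e d] at this
        exact this
    · simp [div_self hl]
  | mul x y hx hy h1 h2 =>
    obtain ⟨d, G, hG, rfl⟩ := h1
    obtain ⟨e, H, hH, rfl⟩ := h2
    exact ⟨d + e, G * H, hG.mul hH, by simp⟩

lemma aeval_mem_chart (T : Fin (n + 1) → K) (l : Fin (n + 1)) (G : MvPolynomial (Fin (n + 1)) k) :
    aeval (fun j => T j / T l) G ∈ chart k T l := by
  unfold chart
  rw [Algebra.adjoin_range_eq_range_aeval]
  exact ⟨G, rfl⟩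

/-- the local ring in homogeneous terms -/
lemma locHom_eq_ptAt {T : Fin (n + 1) → K} {l : Fin (n + 1)} (hl : T l ≠ 0)
    (x : chart k T l →ₐ[k] k) (z : K) :
    z ∈ locHom (chart k T l) x ↔ z ∈ ptAt T (fun j => x ⟨_, mem_chart T l j⟩) := by
  set c : Fin (n + 1) → k := fun j => x ⟨_, mem_chart T l j⟩ with hc
  have hcl : c l = 1 := by
    have : (⟨_, mem_chart T l l⟩ : chart k T l) = 1 := by
      apply Subtype.ext
      push_cast
      exact div_self hl
    rw [hc]; simp only
    rw [this, map_one]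
  have hx : ∀ G : MvPolynomial (Fin (n + 1)) k,
      x ⟨_, aeval_mem_chart T l G⟩ = eval c G := by
    intro G
    let φ : MvPolynomial (Fin (n + 1)) k →ₐ[k] chart k T l :=
      aeval (fun j => (⟨_, mem_chart T l j⟩ : chart k T l))
    have h1 : ∀ G, (φ G : K) = aeval (fun j => T j / T l) G := by
      intro G
      have : ((chart k T l).val).comp φ = aeval (fun j => T j / T l) := by
        apply MvPolynomial.algHom_ext
        intro j
        simp [φ]
      rw [← this]; rfl
    have h2 : (⟨_, aeval_mem_chart T l G⟩ : chart k T l) = φ G := Subtype.ext (h1 G).symm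
    rw [h2]
    have h3 : x.comp φ = aeval c := by
      apply MvPolynomial.algHom_ext
      intro j
      simp [φ, hc]
    have h4 := congrArg (fun g => g G) h3
    simpa [MvPolynomial.aeval_eq_eval] using h4
  rw [mem_locHom]
  constructor
  · rintro ⟨⟨a, ha⟩, ⟨s, hs⟩, hxs, hzs⟩
    obtain ⟨d, G, hG, rfl⟩ := chart_elem hl ha
    obtain ⟨e, H, hH, rfl⟩ := chart_elem hl hs
    rw [hx] at hxs
    refine ⟨d + e, G * X l ^ e, H * X l ^ d, ?_, ?_, ?_, ?_⟩
    · have := hG.mul ((isHomogeneous_X k l).pow e)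
      simpa using this
    · have := hH.mul ((isHomogeneous_X k l).pow d)
      rw [one_mul, add_comm e d] at this
      exact this
    · rw [map_mul, map_pow, eval_X, hcl, one_pow, mul_one]
      exact hxs
    · simp only at hzs
      rw [map_mul, map_mul, aeval_div_homog hG hl T, aeval_div_homog hH hl T, ← hzs]
      simp only [map_pow, aeval_X]
      ring
  · rintro ⟨d, G, H, hG, hH, hcH, hz⟩
    refine ⟨⟨_, aeval_mem_chart T l G⟩, ⟨_, aeval_mem_chart T l H⟩, ?_, ?_⟩
    · rw [hx]; exact hcH
    · simp only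
      rw [aeval_div_homog hG hl T, aeval_div_homog hH hl T] at hz
      have h0 := pow_ne_zero d hl
      apply mul_left_cancel₀ h0
      rw [← hz]; ring

end

section
variable {k : Type} [Field k] [IsAlgClosed k] {K : Type} [Field K] [Algebra k K] {N n : ℕ}

lemma points_eq_ptAt {T : Fin (n + 1) → K} {O : Subalgebra k K} (hO : O ∈ points k T) :
    ∃ c : Fin (n + 1) → k, ∀ z, z ∈ O ↔ z ∈ ptAt T c := by
  obtain ⟨l, hl, x, rfl⟩ := mem_points_iff.1 hO
  exact ⟨_, locHom_eq_ptAt hl x⟩

lemma exists_hom (f : Fin (N + 1) → K) (i : Fin (N + 1)) : Nonempty (chart k f i →ₐ[k] k) := by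
  haveI : Algebra.FiniteType k (chart k f i) :=
    (chart k f i).fg_iff_finiteType.1 (chart_fg f i)
  obtain ⟨𝔪, hm⟩ := Ideal.exists_maximal (chart k f i)
  obtain ⟨x, -⟩ := exists_hom_of_isMaximal (k := k) 𝔪 hm
  exact ⟨x⟩

/-- every element of the function field is a quotient of homogeneous polynomials -/
lemma ratio {f : Fin (N + 1) → K} {T : Fin (n + 1) → K} (hf : IsVariety k f)
    (hpts : points k T = points k f) (z : K) :
    ∃ (d : ℕ) (G H : MvPolynomial (Fin (n + 1)) k), G.IsHomogeneous d ∧ H.IsHomogeneous d ∧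
      aeval T H ≠ 0 ∧ z * aeval T H = aeval T G := by
  obtain ⟨i, hi, hgen⟩ := hf
  obtain ⟨x⟩ := exists_hom (k := k) f i
  have hO : locHom (chart k f i) x ∈ points k f := mem_points_iff.2 ⟨i, hi, x, rfl⟩
  have hO' := hO
  rw [← hpts] at hO
  obtain ⟨l, hl, x', hx'⟩ := mem_points_iff.1 hO
  obtain ⟨a, ha, b, hb, hb0, hz⟩ := exists_div_of_adjoin hgen z
  have ha' : a ∈ locHom (chart k T l) x' := by rw [← hx']; exact le_locHom _ _ ha
  have hb' : b ∈ locHom (chart k T l) x' := by rw [← hx']; exact le_locHom _ _ hb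
  obtain ⟨a1, s1, hs1, h1⟩ := mem_locHom.1 ha'
  obtain ⟨b1, t1, ht1, h2⟩ := mem_locHom.1 hb'
  have hs10 := coe_ne_zero_of hs1
  have ht10 := coe_ne_zero_of ht1
  have hb10 : (b1 : K) ≠ 0 := by
    rw [← h2]; exact mul_ne_zero hb0 ht10
  -- z = a/b = (a1/s1)/(b1/t1)
  obtain ⟨d, G, hG, e1⟩ := chart_elem hl (a1 * t1).2
  obtain ⟨e, H, hH, e2⟩ := chart_elem hl (s1 * b1).2
  have hH0 : aeval (fun j => T j / T l) H ≠ 0 := by
    rw [← e2]
    push_cast
    exact mul_ne_zero hs10 hb10
  refine ⟨d + e, G * X l ^ e, H * X l ^ d, ?_, ?_, ?_, ?_⟩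
  · have := hG.mul ((isHomogeneous_X k l).pow e)
    simpa using this
  · have := hH.mul ((isHomogeneous_X k l).pow d)
    rw [one_mul, add_comm e d] at this
    exact this
  · rw [map_mul, aeval_div_homog hH hl T, map_pow, aeval_X]
    exact mul_ne_zero (mul_ne_zero (pow_ne_zero _ hl) hH0) (pow_ne_zero _ hl)
  · have h3 : z * ((s1 * b1 : chart k T l) : K) = ((a1 * t1 : chart k T l) : K) := by
      push_cast
      rw [← h1, ← h2, ← hz]; ring
    rw [e1, e2] at h3
    rw [map_mul, map_mul, aeval_div_homog hG hl T, aeval_div_homog hH hl T, ← h3]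
    simp only [map_pow, aeval_X]
    ring

lemma common {f : Fin (N + 1) → K} {T : Fin (n + 1) → K} (hf : IsVariety k f)
    (hpts : points k T = points k f) :
    ∃ (m : ℕ) (lam : K) (P : Fin (N + 1) → MvPolynomial (Fin (n + 1)) k), lam ≠ 0 ∧
      ∀ j, (P j).IsHomogeneous m ∧ f j = lam * aeval T (P j) := by
  classical
  choose d G H hG hH hH0 hz using fun j => ratio hf hpts (f j)
  refine ⟨∑ i, d i, (∏ i, aeval T (H i))⁻¹, fun j => G j * ∏ i ∈ Finset.univ.erase j, H i, ?_, ?_⟩
  · exact inv_ne_zero (Finset.prod_ne_zero_iff.2 fun i _ => hH0 i)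
  · intro j
    constructor
    · rw [← Finset.add_sum_erase _ _ (Finset.mem_univ j)]
      exact (hG j).mul (IsHomogeneous.prod _ _ _ fun i _ => hH i)
    · have h1 : ∏ i, aeval T (H i) ≠ 0 := Finset.prod_ne_zero_iff.2 fun i _ => hH0 i
      rw [map_mul, map_prod, ← hz j, mul_assoc, Finset.mul_prod_erase Finset.univ (fun i => aeval T (H i)) (Finset.mem_univ j)]
      field_simp

lemma prime_factor {P : MvPolynomial (Fin (n + 1)) k} (hP : P ≠ 0) (c : Fin (n + 1) → k)
    (h : eval c P = 0) : ∃ π, Prime π ∧ π ∣ P ∧ eval c π = 0 := by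
  have h1 := UniqueFactorizationMonoid.factors_prod hP
  obtain ⟨u, hu⟩ := h1
  have h2 : eval c (UniqueFactorizationMonoid.factors P).prod = 0 := by
    have h3 : eval c ((UniqueFactorizationMonoid.factors P).prod * u) = 0 := by rw [hu, h]
    rw [map_mul] at h3
    exact (mul_eq_zero.1 h3).resolve_right (u.isUnit.map (eval c)).ne_zero
  rw [map_multiset_prod, Multiset.prod_eq_zero_iff, Multiset.mem_map] at h2
  obtain ⟨π, hπ, h0⟩ := h2
  exact ⟨π, UniqueFactorizationMonoid.prime_of_factor π hπ,
    UniqueFactorizationMonoid.dvd_of_mem_factors hπ, h0⟩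

theorem proj_key {f : Fin (N + 1) → K} {T : Fin (n + 1) → K} (hf : IsVariety k f)
    (hT : ∀ j, T j ≠ 0)
    (hind : AlgebraicIndependent k (fun j : Fin n => T j.succ / T 0))
    (hpts : points k T = points k f) :
    ∃ (m : ℕ) (lam : K) (P : Fin (N + 1) → MvPolynomial (Fin (n + 1)) k), lam ≠ 0 ∧
      (∀ j, (P j).IsHomogeneous m ∧ f j = lam * aeval T (P j)) ∧
      ∀ G : MvPolynomial (Fin (n + 1)) k, G.IsHomogeneous m → ∀ i, f i ≠ 0 →
        lam * aeval T G / f i ∈ chart k f i := by
  classical
  have hex : ∃ (m : ℕ), ∃ (lam : K) (P : Fin (N + 1) → MvPolynomial (Fin (n + 1)) k), lam ≠ 0 ∧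
      ∀ j, (P j).IsHomogeneous m ∧ f j = lam * aeval T (P j) := common hf hpts
  obtain ⟨lam, P, hlam, hP⟩ := Nat.find_spec hex
  have hmin : ∀ m', m' < Nat.find hex → ¬ ∃ (lam : K)
      (P : Fin (N + 1) → MvPolynomial (Fin (n + 1)) k), lam ≠ 0 ∧
      ∀ j, (P j).IsHomogeneous m' ∧ f j = lam * aeval T (P j) := fun m' h => Nat.find_min hex h
  obtain ⟨m, hm⟩ : ∃ m, m = Nat.find hex := ⟨_, rfl⟩
  rw [← hm] at hP hmin
  refine ⟨m, lam, P, hlam, hP, ?_⟩
  intro G hG i hi
  have hPi0 : P i ≠ 0 := by
    intro h0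
    apply hi
    rw [(hP i).2, h0, map_zero, mul_zero]
  have haPi : aeval T (P i) ≠ 0 := fun h0 => hi (by rw [(hP i).2, h0, mul_zero])
  apply mem_of_forall_locHom (chart_fg f i)
  · -- it is a fraction
    obtain ⟨i0, hi0, hgen⟩ := hf
    have hgen' : IntermediateField.adjoin k (Set.range fun j => f j / f i) = ⊤ := by
      rw [eq_top_iff, ← hgen, IntermediateField.adjoin_le_iff]
      rintro _ ⟨j, rfl⟩
      have hj : f j / f i0 = (f j / f i) / (f i0 / f i) := by field_simp
      simp only [SetLike.mem_coe]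
      rw [hj]
      exact div_mem (IntermediateField.subset_adjoin _ _ ⟨j, rfl⟩)
        (IntermediateField.subset_adjoin _ _ ⟨i0, rfl⟩)
    obtain ⟨a, ha, b, hb, hb0, h⟩ := exists_div_of_adjoin hgen' (lam * aeval T G / f i)
    refine ⟨⟨a, ha⟩, ⟨b, hb⟩, ?_, h⟩
    intro h0
    exact hb0 (congrArg Subtype.val h0)
  · intro x
    have hO : locHom (chart k f i) x ∈ points k f := mem_points_iff.2 ⟨i, hi, x, rfl⟩
    have hO' := hO
    rw [← hpts] at hO'
    obtain ⟨c, hc⟩ := points_eq_ptAt hO'
    -- the numerator of `f i` does not vanish at `c`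
    have hnv : eval c (P i) ≠ 0 := by
      intro hv
      obtain ⟨π, hπ, hdvd, hπ0⟩ := prime_factor hPi0 c hv
      have hall : ∀ j, π ∣ P j := by
        intro j
        have hj : f j / f i ∈ locHom (chart k f i) x := le_locHom _ _ (mem_chart f i j)
        rw [hc] at hj
        obtain ⟨d, G', H', hG', hH', hcH, he⟩ := hj
        have e1 : aeval T (P j * H' - G' * P i) = 0 := by
          rw [map_sub, map_mul, map_mul, ← he]
          have h1 := (hP j).2
          have h2 := (hP i).2
          rw [h1, h2]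
          field_simp
          ring
        have hd1 : (P j * H' - G' * P i).IsHomogeneous (m + d) := by
          apply IsHomogeneous.sub ((hP j).1.mul hH')
          rw [add_comm m d]
          exact hG'.mul (hP i).1
        have e2 := hom_inj hT hind hd1 e1
        have e3 : P j * H' = G' * P i := by rw [← sub_eq_zero]; exact e2
        have e4 : π ∣ P j * H' := by rw [e3]; exact hdvd.mul_left _
        rcases hπ.dvd_or_dvd e4 with h5 | h5
        · exact h5
        · exfalso
          apply hcH
          obtain ⟨w, rfl⟩ := h5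
          rw [map_mul, hπ0, zero_mul]
      choose Q hQ using hall
      obtain ⟨e, b, hπe, hQb, hab⟩ := Pool.Agent.H371R3.GQ.isHomogeneous_of_mul
        (by rw [← hQ i]; exact hPi0) (by rw [← hQ i]; exact (hP i).1)
      have he : e ≠ 0 := by
        rintro rfl
        obtain ⟨r, hr⟩ : ∃ r, π = C r := by
          refine ⟨_, (totalDegree_eq_zero_iff_eq_C).1 ?_⟩
          exact hπe.totalDegree hπ.ne_zero
        rw [hr, eval_C] at hπ0
        rw [hπ0, map_zero] at hr
        exact hπ.ne_zero hr
      apply hmin b (by omega)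
      refine ⟨lam * aeval T π, Q, ?_, ?_⟩
      · apply mul_ne_zero hlam
        intro h0
        exact hπ.ne_zero (hom_inj hT hind hπe h0)
      · intro j
        constructor
        · by_cases hj0 : P j = 0
          · have : Q j = 0 := by
              have h1 := hQ j
              rw [hj0] at h1
              exact (mul_eq_zero.1 h1.symm).resolve_left hπ.ne_zero
            rw [this]
            exact isHomogeneous_zero _ _ _
          · apply Pool.Agent.H371R3.GQ.hom_of_mul' hπe hπ.ne_zero
            rw [mul_comm (Q j) π, ← hQ j, add_comm b e, hab]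
            exact (hP j).1
        · rw [(hP j).2, hQ j, map_mul]; ring
    rw [hc]
    refine ⟨m, G, P i, hG, (hP i).1, hnv, ?_⟩
    rw [(hP i).2]
    field_simp

end

end Q36.AT
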