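import Pool.Agent.Q36.AT.Smooth

set_option autoImplicit false
set_option linter.all false

open MvPolynomial

namespace Q36.AT

section
variable {k : Type} [Field k] {K : Type} [Field K] [Algebra k K]

lemma trdeg_of_gen {n : ℕ} (u : Fin n → K) (hi : AlgebraicIndependent k u)
    (hu : IntermediateField.adjoin k (Set.range u) = ⊤) : Algebra.trdeg k K = n := by
  haveI := isAlgebraic_of_adjoin hu
  have h := hi.isTranscendenceBasis_iff_isAlgebraic.2 this
  rw [← h.cardinalMk_eq_trdeg]
  simp

end

section FF
variable (k : Type) [Field k]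

/-- the rational function field in three variables -/
def FF : Type := FractionRing (MvPolynomial (Fin 3) k)

noncomputable instance : Field (FF k) := inferInstanceAs (Field (FractionRing (MvPolynomial (Fin 3) k)))
noncomputable instance : Algebra (MvPolynomial (Fin 3) k) (FF k) :=
  inferInstanceAs (Algebra (MvPolynomial (Fin 3) k) (FractionRing (MvPolynomial (Fin 3) k)))
instance : IsFractionRing (MvPolynomial (Fin 3) k) (FF k) :=
  inferInstanceAs (IsFractionRing (MvPolynomial (Fin 3) k) (FractionRing (MvPolynomial (Fin 3) k)))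
noncomputable instance : Algebra k (FF k) :=
  inferInstanceAs (Algebra k (FractionRing (MvPolynomial (Fin 3) k)))
instance : IsScalarTower k (MvPolynomial (Fin 3) k) (FF k) :=
  inferInstanceAs (IsScalarTower k (MvPolynomial (Fin 3) k) (FractionRing (MvPolynomial (Fin 3) k)))

/-- the variables -/
noncomputable def vv (i : Fin 3) : FF k := algebraMap (MvPolynomial (Fin 3) k) (FF k) (X i)

variable {k}

lemma algebraMap_eq_aeval (p : MvPolynomial (Fin 3) k) :
    algebraMap (MvPolynomial (Fin 3) k) (FF k) p = aeval (vv k) p := by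
  have : (Algebra.ofId (MvPolynomial (Fin 3) k) (FF k)).restrictScalars k = aeval (vv k) := by
    apply MvPolynomial.algHom_ext
    intro i
    simp [vv, Algebra.ofId_apply]
  rw [← this]
  rfl

lemma algIndep_vv : AlgebraicIndependent k (vv k) := by
  rw [algebraicIndependent_iff_injective_aeval]
  intro p q h
  rw [← algebraMap_eq_aeval, ← algebraMap_eq_aeval] at h
  exact IsFractionRing.injective _ _ h

lemma vv_ne_zero (i : Fin 3) : vv k i ≠ 0 := by
  intro h
  have : (X i : MvPolynomial (Fin 3) k) = 0 := by
    apply IsFractionRing.injective (MvPolynomial (Fin 3) k) (FF k)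
    rw [map_zero]; exact h
  exact X_ne_zero i this

lemma adjoin_vv : IntermediateField.adjoin k (Set.range (vv k)) = ⊤ := by
  rw [eq_top_iff]
  intro z _
  obtain ⟨a, b, hb, rfl⟩ := IsFractionRing.div_surjective (A := MvPolynomial (Fin 3) k) z
  have key : ∀ p : MvPolynomial (Fin 3) k, algebraMap (MvPolynomial (Fin 3) k) (FF k) p ∈
      IntermediateField.adjoin k (Set.range (vv k)) := by
    intro p
    rw [algebraMap_eq_aeval]
    apply IntermediateField.algebra_adjoin_le_adjoin
    rw [Algebra.adjoin_range_eq_range_aeval]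
    exact ⟨p, rfl⟩
  exact div_mem (key a) (key b)

lemma trdeg_FF : Algebra.trdeg k (FF k) = (3 : ℕ) :=
  trdeg_of_gen _ algIndep_vv adjoin_vv

open TrivSqZeroExt in
/-- derivations of the rational function field with prescribed values -/
lemma exists_deriv (c : Fin 3 → FF k) :
    ∃ D : Derivation k (FF k) (FF k), ∀ i, D (vv k i) = c i := by
  let φ : MvPolynomial (Fin 3) k →ₐ[k] TrivSqZeroExt (FF k) (FF k) :=
    aeval (fun i => inl (vv k i) + inr (c i))
  have hfst : ∀ p, (φ p).fst = algebraMap _ (FF k) p := by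
    intro p
    have : (TrivSqZeroExt.fstHom k (FF k) (FF k)).comp φ = aeval (vv k) := by
      apply MvPolynomial.algHom_ext
      intro i
      simp [φ]
    rw [algebraMap_eq_aeval, ← this]
    rfl
  have hu : ∀ y : nonZeroDivisors (MvPolynomial (Fin 3) k), IsUnit (φ y) := by
    intro y
    rw [TrivSqZeroExt.isUnit_iff_isUnit_fst, hfst, isUnit_iff_ne_zero]
    intro h0
    have := IsFractionRing.injective (MvPolynomial (Fin 3) k) (FF k) (h0.trans (map_zero _).symm)
    exact nonZeroDivisors.ne_zero y.2 this
  let ψ : FF k →ₐ[k] TrivSqZeroExt (FF k) (FF k) :=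
    IsLocalization.liftAlgHom (M := nonZeroDivisors (MvPolynomial (Fin 3) k)) (f := φ) hu
  have hψ : ∀ p, ψ (algebraMap (MvPolynomial (Fin 3) k) (FF k) p) = φ p := by
    intro p
    exact IsLocalization.lift_eq _ _
  have hid : ∀ z, (ψ z).fst = z := by
    intro z
    obtain ⟨a, b, hb, rfl⟩ := IsFractionRing.div_surjective (A := MvPolynomial (Fin 3) k) z
    have hb0 : algebraMap (MvPolynomial (Fin 3) k) (FF k) b ≠ 0 := by
      intro h0
      have := IsFractionRing.injective (MvPolynomial (Fin 3) k) (FF k)
        (h0.trans (map_zero _).symm)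
      exact nonZeroDivisors.ne_zero hb this
    rw [eq_div_iff hb0]
    have h1 : ψ (algebraMap _ (FF k) a / algebraMap _ (FF k) b) * ψ (algebraMap _ (FF k) b) =
        ψ (algebraMap _ (FF k) a) := by
      rw [← map_mul, div_mul_cancel₀ _ hb0]
    have h2 := congrArg TrivSqZeroExt.fst h1
    rw [TrivSqZeroExt.fst_mul, hψ, hψ, hfst, hfst] at h2
    exact h2
  let Dl : FF k →ₗ[k] FF k := (TrivSqZeroExt.sndHom (FF k) (FF k)).restrictScalars k ∘ₗ
    ψ.toLinearMap
  have hDl : ∀ z, Dl z = (ψ z).snd := fun z => rfl
  refine ⟨Derivation.mk' Dl ?_, ?_⟩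
  · intro a b
    rw [hDl, hDl, hDl, map_mul, TrivSqZeroExt.snd_mul, hid, hid]
    simp
    ring
  · intro i
    change Dl (vv k i) = c i
    rw [hDl]
    unfold vv
    rw [hψ]
    simp [φ]

end FF

end Q36.AT
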