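import Pool.Agent.Q36.AT.Loc

set_option autoImplicit false
set_option linter.all false

namespace Q36.AT

section
variable {k : Type} [Field k] {K : Type} [Field K] [Algebra k K]

lemma exists_div_of_adjoin {S : Set K} (hu : IntermediateField.adjoin k S = ⊤) (z : K) :
    ∃ a ∈ Algebra.adjoin k S, ∃ b ∈ Algebra.adjoin k S, b ≠ 0 ∧ z * b = a := by
  have hz : z ∈ IntermediateField.adjoin k S := by rw [hu]; trivial
  obtain ⟨a, ha, b, hb, h⟩ := IntermediateField.mem_adjoin_iff_div.1 hz
  by_cases hb0 : b = 0
  · subst hb0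
    rw [div_zero] at h
    exact ⟨0, Subalgebra.zero_mem _, 1, Subalgebra.one_mem _, one_ne_zero, by rw [h]; simp⟩
  · exact ⟨a, ha, b, hb, hb0, by rw [h]; field_simp⟩

lemma isAlgebraic_of_adjoin {S : Set K} (hu : IntermediateField.adjoin k S = ⊤) :
    Algebra.IsAlgebraic (Algebra.adjoin k S) K := by
  constructor
  intro z
  obtain ⟨a, ha, b, hb, hb0, h⟩ := exists_div_of_adjoin hu z
  refine ⟨Polynomial.C (⟨b, hb⟩ : Algebra.adjoin k S) * Polynomial.X -
    Polynomial.C (⟨a, ha⟩ : Algebra.adjoin k S), ?_, ?_⟩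
  · intro h0
    have := congrArg (fun p => Polynomial.coeff p 1) h0
    simp at this
    exact hb0 (congrArg Subtype.val this)
  · simp only [map_sub, map_mul, Polynomial.aeval_C, Polynomial.aeval_X]
    change b * z - a = 0
    rw [← h]; ring

lemma algIndep_of_adjoin {n : ℕ} (h3 : Algebra.trdeg k K = n) (u : Fin n → K)
    (hu : IntermediateField.adjoin k (Set.range u) = ⊤) : AlgebraicIndependent k u := by
  haveI := isAlgebraic_of_adjoin hu
  have := Algebra.IsAlgebraic.isTranscendenceBasis_of_le_trdeg_of_finite k u (by rw [h3]; simp)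
  exact this.1

lemma formallySmooth_of_algIndep {n : ℕ} (u : Fin n → K) (h : AlgebraicIndependent k u) :
    Algebra.FormallySmooth k (Algebra.adjoin k (Set.range u)) :=
  Algebra.FormallySmooth.of_equiv h.aevalEquiv

lemma formallySmooth_locHom (A : Subalgebra k K) (x : A →ₐ[k] k)
    (hA : Algebra.FormallySmooth k A) : Algebra.FormallySmooth k (locHom A x) := by
  letI : Algebra A (locHom A x) := (Subalgebra.inclusion (le_locHom A x)).toRingHom.toAlgebra
  haveI : IsScalarTower k A (locHom A x) := by
    apply IsScalarTower.of_algebraMap_eq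
    intro c
    rfl
  haveI hP : (RingHom.ker x).IsPrime := RingHom.ker_isPrime x
  haveI : IsLocalization (RingHom.ker x).primeCompl (locHom A x) := by
    rw [isLocalization_iff]
    refine ⟨?_, ?_, ?_⟩
    · rintro ⟨y, hy⟩
      have hy' : x y ≠ 0 := hy
      have hy0 := coe_ne_zero_of hy'
      have hinv : (y : K)⁻¹ ∈ locHom A x := by
        rw [mem_locHom]
        exact ⟨1, y, hy', by field_simp; simp⟩
      refine IsUnit.of_mul_eq_one ⟨(y : K)⁻¹, hinv⟩ ?_
      apply Subtype.ext
      change (y : K) * (y : K)⁻¹ = 1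
      field_simp
    · rintro ⟨z, hz⟩
      obtain ⟨a, s, hs, h⟩ := mem_locHom.1 hz
      refine ⟨(a, ⟨s, hs⟩), ?_⟩
      apply Subtype.ext
      exact h
    · intro a b h
      refine ⟨1, ?_⟩
      have h2 : ((algebraMap A (locHom A x) a : locHom A x) : K) =
        ((algebraMap A (locHom A x) b : locHom A x) : K) := by rw [h]
      have h3 : (a : K) = (b : K) := h2
      rw [Subtype.ext h3]
  haveI : Algebra.FormallySmooth A (locHom A x) :=
    Algebra.FormallySmooth.of_isLocalization (RingHom.ker x).primeCompl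
  exact Algebra.FormallySmooth.comp k A (locHom A x)

end

end Q36.AT
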