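import Pool.Agent.Q36.AT.Charts

set_option autoImplicit false
set_option linter.all false

open MvPolynomial

namespace Q36.AT

section
variable {k : Type} [Field k] {K : Type} [Field K] [Algebra k K] {N : ℕ}

open Classical in
/-- a local generator of `𝒪(1)` -/
noncomputable def gO (f : Fin (N + 1) → K) (O : Subalgebra k K) : K :=
  if h : ∃ i, f i ≠ 0 ∧ ∀ j, f j / f i ∈ O then f h.choose else 1

lemma gO_spec {f : Fin (N + 1) → K} {O : Subalgebra k K}
    (h : ∃ i, f i ≠ 0 ∧ ∀ j, f j / f i ∈ O) :
    ∃ i, f i ≠ 0 ∧ (∀ j, f j / f i ∈ O) ∧ gO f O = f i := by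
  refine ⟨h.choose, h.choose_spec.1, h.choose_spec.2, ?_⟩
  unfold gO
  rw [dif_pos h]

lemma points_gO {f : Fin (N + 1) → K} {O : Subalgebra k K} (hO : O ∈ points k f) :
    ∃ i, f i ≠ 0 ∧ (∀ j, f j / f i ∈ O) ∧ gO f O = f i := by
  apply gO_spec
  obtain ⟨i, hi, 𝔪, hm, rfl⟩ := hO
  refine ⟨i, hi, fun j => ?_⟩
  rw [mem_locAt]
  refine ⟨⟨_, mem_chart f i j⟩, 1, ?_, by simp⟩
  intro h1
  exact hm.ne_top ((Ideal.eq_top_iff_one _).2 h1)

open Classical in
/-- the line bundle `𝒪(1)` -/
noncomputable def bundleO1 (f : Fin (N + 1) → K) : LineBundle k f where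
  gen := gO f
  gen_ne_zero := by
    intro O hO
    obtain ⟨i, hi, -, h⟩ := points_gO hO
    rw [h]; exact hi
  locally_constant := by
    intro O hO
    obtain ⟨i, hi, hj, h⟩ := points_gO hO
    refine ⟨Finset.univ.image (fun j => f j / f i), f i, ?_, hi, ?_⟩
    · intro z hz
      rw [Finset.mem_image] at hz
      obtain ⟨j, -, rfl⟩ := hz
      exact hj j
    · intro O' hO' hS
      obtain ⟨i', hi', hj', h'⟩ := points_gO hO'
      rw [h']
      exact ⟨hS _ (Finset.mem_image.2 ⟨i', Finset.mem_univ _, rfl⟩), hj' i⟩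

lemma bundleO1_ample (f : Fin (N + 1) → K) : (bundleO1 (k := k) f).IsAmple := by
  refine ⟨1, N, f, one_pos, rfl, ?_⟩
  intro O hO
  obtain ⟨i, hi, hj, h⟩ := points_gO hO
  have hg : (bundleO1 (k := k) f).gen O = f i := h
  rw [hg, pow_one]
  refine ⟨hj, i, hi, ?_⟩
  rw [div_self hi]
  exact Subalgebra.one_mem _

/-- A derivation with constant values on the homogeneous coordinates is a twisted vector field. -/
lemma twisted {f : Fin (N + 1) → K} (D : Derivation k K K) (c : Fin (N + 1) → k)
    (hD : ∀ j, D (f j) = algebraMap k K (c j)) : (bundleO1 (k := k) f).MapsToTangent D := by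
  intro O hO b hb
  obtain ⟨i, hi, hj, h⟩ := points_gO hO
  have hg : (bundleO1 (k := k) f).gen O = f i := h
  rw [hg]
  obtain ⟨l, hl, 𝔪, hm, rfl⟩ := hO
  have hAO : (chart k f l) ≤ locAt (chart k f l) 𝔪 hm.isPrime := by
    intro a ha
    rw [mem_locAt]
    exact ⟨⟨a, ha⟩, 1, fun h1 => hm.ne_top ((Ideal.eq_top_iff_one _).2 h1), by simp⟩
  -- first on the chart ring
  have h1 : ∀ a ∈ (chart k f l), f l * D a ∈ (chart k f l) := by
    intro a ha
    unfold chart at ha
    induction ha using Algebra.adjoin_induction with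
    | mem x hx =>
      obtain ⟨j, rfl⟩ := hx
      have : f l * D (f j / f l) = algebraMap k K (c j) - f j / f l * algebraMap k K (c l) := by
        have h2 : D (f j) = D (f j / f l * f l) := by rw [div_mul_cancel₀ _ hl]
        rw [D.leibniz, hD, hD] at h2
        simp only [smul_eq_mul] at h2
        linear_combination -h2
      change f l * D (f j / f l) ∈ (chart k f l)
      rw [this]
      exact (chart k f l).sub_mem ((chart k f l).algebraMap_mem _) ((chart k f l).mul_mem (mem_chart f l j) ((chart k f l).algebraMap_mem _))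
    | algebraMap r =>
      rw [D.map_algebraMap, mul_zero]
      exact (chart k f l).zero_mem
    | add x y hx hy h2 h3 =>
      rw [map_add, mul_add]
      exact (chart k f l).add_mem h2 h3
    | mul x y hx hy h2 h3 =>
      rw [D.leibniz]
      simp only [smul_eq_mul]
      have : f l * (x * D y + y * D x) = x * (f l * D y) + y * (f l * D x) := by ring
      rw [this]
      exact (chart k f l).add_mem ((chart k f l).mul_mem hx h3) ((chart k f l).mul_mem hy h2)
  -- then on the local ring
  obtain ⟨a, s, hs, hbs⟩ := mem_locAt.1 hb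
  have hs0 : (s : K) ≠ 0 := by
    intro h0
    apply hs
    have : s = 0 := by exact_mod_cast h0
    rw [this]; exact 𝔪.zero_mem
  have hsinv : (s : K)⁻¹ ∈ locAt (chart k f l) 𝔪 hm.isPrime := by
    rw [mem_locAt]
    exact ⟨1, s, hs, by simp [hs0]⟩
  have h2 : f l * D b = (f l * D a - b * (f l * D s)) * (s : K)⁻¹ := by
    have h3 : D (b * s) = D a := by rw [hbs]
    rw [D.leibniz] at h3
    simp only [smul_eq_mul] at h3
    field_simp
    linear_combination h3
  have h4 : f l * D b ∈ locAt (chart k f l) 𝔪 hm.isPrime := by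
    rw [h2]
    exact Subalgebra.mul_mem _ (Subalgebra.sub_mem _ (hAO (h1 _ a.2))
      (Subalgebra.mul_mem _ hb (hAO (h1 _ s.2)))) hsinv
  have h5 : f i / f l ∈ locAt (chart k f l) 𝔪 hm.isPrime := hAO (mem_chart f l i)
  have h6 : (f i • D) b = f i / f l * (f l * D b) := by
    rw [Derivation.smul_apply, smul_eq_mul]
    field_simp
  rw [h6]
  exact Subalgebra.mul_mem _ h5 h4

end

section
variable {k : Type} [Field k]

theorem quad_tangent [CharP k 2] : ∃ D : Derivation k (FF k) (FF k), D ≠ 0 ∧
    (bundleO1 (k := k) (quad k)).MapsToTangent D := by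
  obtain ⟨D, hD⟩ := exists_deriv (k := k) ![1, 0, 0]
  have h2 : (2 : FF k) = 0 := by
    have h : (2 : k) = 0 := CharTwo.two_eq_zero
    have : algebraMap k (FF k) 2 = 2 := map_ofNat _ 2
    rw [← this, h, map_zero]
  have h0 : D (vv k 0) = 1 := hD 0
  have h1 : D (vv k 1) = 0 := hD 1
  have h3 : D (vv k 2) = 0 := hD 2
  refine ⟨D, ?_, ?_⟩
  · rintro rfl
    simp at h0
  · apply twisted D ![0, 0, 0, 0, 1]
    intro j
    fin_cases j
    · change D 1 = algebraMap k (FF k) 0
      simp
    · change D (qq k) = algebraMap k (FF k) 0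
      unfold qq
      rw [map_add, D.leibniz_pow, D.leibniz, h0, h1, h3]
      simp [h2]
    · change D (vv k 1) = algebraMap k (FF k) 0
      rw [h1]; simp
    · change D (vv k 2) = algebraMap k (FF k) 0
      rw [h3]; simp
    · change D (vv k 0) = algebraMap k (FF k) 1
      rw [h0]; simp

end

end Q36.AT
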